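import Mathlib

/-!
# Morphisms from the unit of an abelian rigid braided category
-/

set_option autoImplicit false

namespace Pool.Agent.L0h15.CM

open CategoryTheory MonoidalCategory Limits

universe v u

variable {C : Type u} [Category.{v} C] [MonoidalCategory C] [RigidCategory C]

theorem epi_whiskerLeft (Z : C) {X Y : C} (p : X ⟶ Y) [Epi p] : Epi (Z ◁ p) := by
  have := (tensorLeftAdjunction (ᘁZ) Z).isLeftAdjoint
  exact inferInstanceAs (Epi ((tensorLeft Z).map p))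

theorem epi_whiskerRight {X Y : C} (p : X ⟶ Y) [Epi p] (Z : C) : Epi (p ▷ Z) := by
  have := (tensorRightAdjunction Z Zᘁ).isLeftAdjoint
  exact inferInstanceAs (Epi ((tensorRight Z).map p))

theorem mono_whiskerRight {X Y : C} (p : X ⟶ Y) [Mono p] (Z : C) : Mono (p ▷ Z) := by
  have := (tensorRightAdjunction (ᘁZ) Z).isRightAdjoint
  exact inferInstanceAs (Mono ((tensorRight Z).map p))

/-- the unit morphism, through the dual -/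
theorem unit_eq {I : C} (p : 𝟙_ C ⟶ I) :
    η_ I Iᘁ ≫ I ◁ ((ρ_ Iᘁ).inv ≫ Iᘁ ◁ p ≫ ε_ I Iᘁ) ≫ (ρ_ I).hom = p := by
  have h1 : η_ I Iᘁ ≫ I ◁ ((ρ_ Iᘁ).inv ≫ Iᘁ ◁ p ≫ ε_ I Iᘁ) ≫ (ρ_ I).hom =
      (ρ_ (𝟙_ C)).inv ≫ (η_ I Iᘁ ▷ 𝟙_ C) ≫ ((I ⊗ Iᘁ) ◁ p) ≫ (α_ I Iᘁ I).hom ≫ I ◁ ε_ I Iᘁ ≫
        (ρ_ I).hom := by
    rw [MonoidalCategory.whiskerLeft_comp, MonoidalCategory.whiskerLeft_comp]
    monoidal
  rw [h1, ← whisker_exchange_assoc, ExactPairing.evaluation_coevaluation_assoc]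
  monoidal

variable [BraidedCategory C]

theorem star {I : C} (p : 𝟙_ C ⟶ I) [Epi p] :
    (β_ I Iᘁ).hom ≫ ε_ I Iᘁ ≫ p = I ◁ ((ρ_ Iᘁ).inv ≫ Iᘁ ◁ p ≫ ε_ I Iᘁ) ≫ (ρ_ I).hom := by
  have := epi_whiskerRight p Iᘁ
  rw [← cancel_epi (p ▷ Iᘁ)]
  rw [BraidedCategory.braiding_naturality_left_assoc, braiding_tensorUnit_left]
  rw [← whisker_exchange_assoc]
  monoidal

variable [Preadditive C] [MonoidalPreadditive C]

/-- every quotient of the unit is trivial, if the endomorphisms of the unit form a field -/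
theorem mono_of_epi {I : C} (p : 𝟙_ C ⟶ I) [Epi p] (hp : p ≠ 0)
    (hunit : ∀ e : 𝟙_ C ⟶ 𝟙_ C, e = 0 ∨ IsIso e) : Mono p := by
  let e : 𝟙_ C ⟶ 𝟙_ C := η_ I Iᘁ ≫ (β_ I Iᘁ).hom ≫ ε_ I Iᘁ
  have he : e ≫ p = p := by
    have h1 : e ≫ p = η_ I Iᘁ ≫ ((β_ I Iᘁ).hom ≫ ε_ I Iᘁ ≫ p) := by
      simp only [e, Category.assoc]
    rw [h1, star, unit_eq]
  have he1 : e = 𝟙 (𝟙_ C) := by
    have h1 : (𝟙 (𝟙_ C) - e) ≫ p = 0 := by
      rw [Preadditive.sub_comp, Category.id_comp, he, sub_self]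
    rcases hunit (𝟙 (𝟙_ C) - e) with h | h
    · exact (sub_eq_zero.1 h).symm
    · exact absurd ((cancel_epi (𝟙 (𝟙_ C) - e)).1 (h1.trans comp_zero.symm)) hp
  refine Preadditive.mono_of_cancel_zero p fun {Z} g hg => ?_
  have h1 : g ▷ I = 0 := by
    have := epi_whiskerLeft Z p
    rw [← cancel_epi (Z ◁ p), comp_zero, whisker_exchange]
    have h2 : g ▷ 𝟙_ C ≫ 𝟙_ C ◁ p = (ρ_ Z).hom ≫ (g ≫ p) ≫ (λ_ I).inv := by monoidal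
    rw [h2, hg, zero_comp, comp_zero]
  have h3 : g ≫ η_ I Iᘁ = 0 := by
    have h4 : g ≫ η_ I Iᘁ = (ρ_ Z).inv ≫ (Z ◁ η_ I Iᘁ ≫ g ▷ (I ⊗ Iᘁ)) ≫ (λ_ (I ⊗ Iᘁ)).hom := by
      rw [whisker_exchange]
      monoidal
    have h5 : g ▷ (I ⊗ Iᘁ) = (α_ Z I Iᘁ).inv ≫ (g ▷ I) ▷ Iᘁ ≫ (α_ (𝟙_ C) I Iᘁ).hom := by monoidal
    rw [h4, h5, h1, MonoidalPreadditive.zero_whiskerRight, zero_comp, comp_zero, comp_zero,
      zero_comp, comp_zero]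
  calc g = g ≫ e := by rw [he1, Category.comp_id]
    _ = (g ≫ η_ I Iᘁ) ≫ (β_ I Iᘁ).hom ≫ ε_ I Iᘁ := by simp only [e, Category.assoc]
    _ = 0 := by rw [h3, zero_comp]

end Pool.Agent.L0h15.CM
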