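import Mathlib

/-!
# The category of Chow motives
-/

set_option autoImplicit false

namespace Pool.Agent.L0h15.CM

open CategoryTheory MonoidalCategory Limits

/-- the additive category `C` is abelian: every morphism has a kernel and a cokernel, and the canonical
map from the coimage to the image is an isomorphism -/
def IsAb (C : Type) [Category.{0} C] [Preadditive C] : Prop :=
  HasFiniteProducts C ∧ ∃ (_ : HasKernels C) (_ : HasCokernels C),
    ∀ (X Y : C) (f : X ⟶ Y), IsIso (Abelian.coimageImageComparison f)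

/-- the category of Chow motives over a field, with rational coefficients, and its known structure -/
structure Motives where
  /-- the objects of the category `CHMot(k)` -/
  C : Type
  [cat : Category.{0} C]
  [pre : Preadditive C]
  [mon : MonoidalCategory C]
  [monpre : MonoidalPreadditive C]
  /-- the commutativity of the tensor product -/
  [braid : BraidedCategory C]
  /-- every motive has a dual -/
  [rigid : RigidCategory C]
  /-- the endomorphism ring of the unit is the field `ℚ` -/
  unit : ∀ e : 𝟙_ C ⟶ 𝟙_ C, e = 0 ∨ IsIso e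
  /-- the smooth projective varieties -/
  Var : Type
  /-- the motive `h(X)(i)`; the morphisms from the unit to `h X i` are the elements of `CH^i(X)_ℚ` -/
  h : Var → ℤ → C
  /-- the product of varieties -/
  prod : Var → Var → Var
  /-- the motive of a product -/
  kun : ∀ X Y i j, h X i ⊗ h Y j ≅ h (prod X Y) (i + j)

attribute [instance] Motives.cat Motives.pre Motives.mon Motives.monpre Motives.braid Motives.rigid

namespace Motives

variable (D : Motives)

/-- the Chow group `CH^i(X)_ℚ` -/
def CH (X : D.Var) (i : ℤ) : Type := 𝟙_ D.C ⟶ D.h X i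

instance (X : D.Var) (i : ℤ) : AddCommGroup (D.CH X i) :=
  inferInstanceAs (AddCommGroup (𝟙_ D.C ⟶ D.h X i))

/-- the multiple of a cycle by an endomorphism of the unit, that is by a rational number -/
def mul {X : D.Var} {i : ℤ} (c : 𝟙_ D.C ⟶ 𝟙_ D.C) (a : D.CH X i) : D.CH X i :=
  c ≫ (show 𝟙_ D.C ⟶ D.h X i from a)

/-- the exterior product `a × b` -/
def ext {X Y : D.Var} {i j : ℤ} (a : D.CH X i) (b : D.CH Y j) : D.CH (D.prod X Y) (i + j) :=
  (λ_ (𝟙_ D.C)).inv ≫ ((show 𝟙_ D.C ⟶ D.h X i from a) ⊗ₘ (show 𝟙_ D.C ⟶ D.h Y j from b)) ≫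
    (D.kun X Y i j).hom

/-- linear independence over the endomorphism ring `ℚ` of the unit -/
def Indep {n : ℕ} {X : D.Var} {i : ℤ} (a : Fin n → D.CH X i) : Prop :=
  ∀ c : Fin n → (𝟙_ D.C ⟶ 𝟙_ D.C), ∑ k, D.mul (c k) (a k) = 0 → ∀ k, c k = 0

/-- the power `X^{n+1}` -/
def pow (X : D.Var) : ℕ → D.Var
  | 0 => X
  | n + 1 => D.prod X (pow X n)

/-- the codimension `(n + 1) i` -/
def cod (i : ℤ) : ℕ → ℤ
  | 0 => i
  | n + 1 => i + cod i n

/-- the exterior power `a × ... × a` with `n + 1` factors -/
def smash {X : D.Var} {i : ℤ} (a : D.CH X i) : ∀ n : ℕ, D.CH (D.pow X n) (cod i n)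
  | 0 => a
  | n + 1 => D.ext a (smash a n)

/-- `a` is smash-nilpotent -/
def SmashNilp {X : D.Var} {i : ℤ} (a : D.CH X i) : Prop := ∃ n, D.smash a n = 0

/-- `a` is numerically trivial: its intersection numbers, the compositions with the morphisms from
`h(X)(i)` to the unit, are zero -/
def NumTriv {X : D.Var} {i : ℤ} (a : D.CH X i) : Prop :=
  ∀ b : D.h X i ⟶ 𝟙_ D.C, (show 𝟙_ D.C ⟶ D.h X i from a) ≫ b = 0

end Motives

end Pool.Agent.L0h15.CM
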