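import Pool.Agent.L0h15.CM.Defs
import Pool.Agent.L0h15.CM.Cat

/-!
# Consequences of the abelianness of the category of Chow motives
-/

set_option autoImplicit false

namespace Pool.Agent.L0h15.CM

open CategoryTheory MonoidalCategory Limits

universe v u

section

variable {C : Type u} [Category.{v} C] [Abelian C] [MonoidalCategory C] [MonoidalPreadditive C]
  [BraidedCategory C] [RigidCategory C]

/-- a nonzero morphism from the unit is a monomorphism -/
theorem mono_of_ne_zero (hunit : ∀ e : 𝟙_ C ⟶ 𝟙_ C, e = 0 ∨ IsIso e) {A : C} (f : 𝟙_ C ⟶ A)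
    (hf : f ≠ 0) : Mono f := by
  have h1 : Abelian.factorThruImage f ≫ Abelian.image.ι f = f := Abelian.image.fac f
  have h2 : Abelian.factorThruImage f ≠ 0 := by
    intro h
    exact hf (by rw [← h1, h, zero_comp])
  have h3 := mono_of_epi (Abelian.factorThruImage f) h2 hunit
  rw [← h1]
  exact mono_comp _ _

/-- the exterior product of morphisms from the unit -/
def et {A B : C} (a : 𝟙_ C ⟶ A) (b : 𝟙_ C ⟶ B) : 𝟙_ C ⟶ A ⊗ B := (λ_ (𝟙_ C)).inv ≫ (a ⊗ₘ b)

omit [Abelian C] [MonoidalPreadditive C] [BraidedCategory C] [RigidCategory C] in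
theorem et_eq {A B : C} (a : 𝟙_ C ⟶ A) (b : 𝟙_ C ⟶ B) : et a b = b ≫ (λ_ B).inv ≫ a ▷ B := by
  unfold et
  rw [tensorHom_def']
  monoidal

theorem et_ne_zero (hunit : ∀ e : 𝟙_ C ⟶ 𝟙_ C, e = 0 ∨ IsIso e) {A B : C} (a : 𝟙_ C ⟶ A)
    (b : 𝟙_ C ⟶ B) (h : et a b = 0) : a = 0 ∨ b = 0 := by
  by_cases ha : a = 0
  · exact Or.inl ha
  · right
    have h1 := mono_of_ne_zero hunit a ha
    have h2 := mono_whiskerRight a B
    rw [et_eq] at h
    have h3 : b ≫ (λ_ B).inv ≫ a ▷ B = 0 ≫ (λ_ B).inv ≫ a ▷ B := by rw [h, zero_comp]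
    exact (cancel_mono ((λ_ B).inv ≫ a ▷ B)).1 h3

omit [Abelian C] [MonoidalPreadditive C] [BraidedCategory C] [RigidCategory C] in
theorem et_comp {A A' B : C} (a : 𝟙_ C ⟶ A) (b : 𝟙_ C ⟶ B) (π : A ⟶ A') :
    et a b ≫ π ▷ B = et (a ≫ π) b := by
  rw [et_eq, et_eq]
  simp

omit [BraidedCategory C] [RigidCategory C] in
theorem et_zero {A B : C} (b : 𝟙_ C ⟶ B) : et (0 : 𝟙_ C ⟶ A) b = 0 := by
  rw [et_eq, MonoidalPreadditive.zero_whiskerRight, comp_zero, comp_zero]

/-- the exterior product is injective on the tensor product -/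
theorem et_inj (hunit : ∀ e : 𝟙_ C ⟶ 𝟙_ C, e = 0 ∨ IsIso e) {B : C} (n : ℕ) :
    ∀ (A : C) (a : Fin n → (𝟙_ C ⟶ A)) (b : Fin n → (𝟙_ C ⟶ B)),
    (∀ c : Fin n → (𝟙_ C ⟶ 𝟙_ C), ∑ k, c k ≫ a k = 0 → ∀ k, c k = 0) →
    ∑ k, et (a k) (b k) = 0 → ∀ k, b k = 0 := by
  induction n with
  | zero => intro A a b _ _ k; exact k.elim0
  | succ n ih =>
    intro A a b ha hab
    by_cases h0 : a 0 = 0
    · have h1 := ha (Pi.single 0 (𝟙 _)) (by
        rw [Finset.sum_eq_zero]
        intro k _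
        by_cases hk : k = 0
        · subst hk; rw [h0, comp_zero]
        · rw [Pi.single_eq_of_ne hk, zero_comp]) 0
      rw [Pi.single_eq_same] at h1
      intro k
      rw [← Category.id_comp (b k), h1, zero_comp]
    · have hmono := mono_of_ne_zero hunit (a 0) h0
      let π := cokernel.π (a 0)
      have h1 := ih (cokernel (a 0)) (fun k => a k.succ ≫ π) (fun k => b k.succ) (by
        intro c hc
        have h2 : (∑ k, c k ≫ a k.succ) ≫ cokernel.π (a 0) = 0 := by
          rw [Preadditive.sum_comp, ← hc]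
          exact Finset.sum_congr rfl fun k _ => Category.assoc _ _ _
        let d := Abelian.monoLift (a 0) _ h2
        have hd : d ≫ a 0 = ∑ k, c k ≫ a k.succ := Abelian.monoLift_comp _ _ h2
        have h3 := ha (Fin.cons (-d) c) (by
          rw [Fin.sum_univ_succ]
          simp only [Fin.cons_zero, Fin.cons_succ]
          rw [Preadditive.neg_comp, hd, neg_add_cancel])
        intro k
        have h4 := h3 k.succ
        rwa [Fin.cons_succ] at h4) (by
        have h2 : (∑ k, et (a k) (b k)) ≫ (π ▷ B) = 0 := by rw [hab, zero_comp]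
        rw [Preadditive.sum_comp, Fin.sum_univ_succ] at h2
        have h3 : a 0 ≫ π = 0 := cokernel.condition _
        rw [et_comp, h3, et_zero, zero_add] at h2
        rw [← h2]
        exact Finset.sum_congr rfl fun k _ => (et_comp _ _ _).symm)
      have h2 : et (a 0) (b 0) = 0 := by
        rw [Fin.sum_univ_succ, Finset.sum_eq_zero, add_zero] at hab
        · exact hab
        · intro k _
          rw [et_eq, h1 k, zero_comp]
      intro k
      refine Fin.cases ?_ h1 k
      exact (et_ne_zero hunit _ _ h2).resolve_left h0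

end

namespace Motives

variable {D : Motives}

theorem ext_eq {X Y : D.Var} {i j : ℤ} (a : D.CH X i) (b : D.CH Y j) :
    D.ext a b = (show 𝟙_ D.C ⟶ D.h X i ⊗ D.h Y j from (λ_ (𝟙_ D.C)).inv ≫
      ((show 𝟙_ D.C ⟶ D.h X i from a) ⊗ₘ (show 𝟙_ D.C ⟶ D.h Y j from b))) ≫
      (D.kun X Y i j).hom := (Category.assoc _ _ _).symm

/-- an abelian structure -/
@[implicit_reducible]
noncomputable def abelian (h : IsAb D.C) : Abelian D.C :=
  @Abelian.ofCoimageImageComparisonIsIso D.C D.cat D.pre h.2.choose h.2.choose_spec.choose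
    (fun f => h.2.choose_spec.choose_spec _ _ f) h.1

theorem ext_ne_zero (h : IsAb D.C) {X Y : D.Var} {i j : ℤ} (a : D.CH X i) (b : D.CH Y j)
    (hab : D.ext a b = 0) : a = 0 ∨ b = 0 := by
  let := abelian h
  rw [ext_eq] at hab
  refine et_ne_zero (C := D.C) D.unit (A := D.h X i) (B := D.h Y j) a b ?_
  refine (cancel_mono (D.kun X Y i j).hom).1 ?_
  rw [zero_comp]
  exact hab

theorem ext_inj (h : IsAb D.C) {X Y : D.Var} {i j : ℤ} {n : ℕ} (a : Fin n → D.CH X i)
    (b : Fin n → D.CH Y j) (ha : D.Indep a) (hab : ∑ k, D.ext (a k) (b k) = 0) : ∀ k, b k = 0 := by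
  let := abelian h
  refine et_inj (C := D.C) D.unit n (D.h X i) a b ha ?_
  refine (cancel_mono (D.kun X Y i j).hom).1 ?_
  rw [zero_comp, Preadditive.sum_comp]
  refine Eq.trans ?_ hab
  exact Finset.sum_congr rfl fun k _ => (ext_eq (a k) (b k)).symm

theorem smash_ne_zero (h : IsAb D.C) {X : D.Var} {i : ℤ} (a : D.CH X i) (ha : a ≠ 0) (n : ℕ) :
    D.smash a n ≠ 0 := by
  induction n with
  | zero => exact ha
  | succ n ih => exact fun h0 => (ext_ne_zero h a (D.smash a n) h0).elim ha ih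

end Motives

end Pool.Agent.L0h15.CM
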